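import Pool.Agent.W274.SH.Odd

/-!
# The limits `f(k)` are strictly increasing in `k`
-/

set_option autoImplicit false

open MeasureTheory Filter

namespace Pool.Agent.Results.MP_4e1dcd_co.StrictlyIncreasing

open Pool.Agent.Results.MP_4e1dcd_co.FThree Pool.Agent.Results.MP_4e1dcd_co.FFour

/-- The `i`-th interval of length `q`. -/
def Iv (q i : ℕ) {m : ℕ} (x : Fin m) : Prop := i * q ≤ x.val ∧ x.val < (i + 1) * q

instance (q i m : ℕ) : DecidablePred (Iv q i (m := m)) := fun x => by unfold Iv; infer_instance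

lemma Iv_lt {q a b m : ℕ} {x y : Fin m} (hx : Iv q a x) (hy : Iv q b y) (hab : a < b) : x < y := by
  rw [Fin.lt_def]
  have h1 : (a + 1) * q ≤ b * q := Nat.mul_le_mul_right q hab
  exact hx.2.trans_le (h1.trans hy.1)

/-- The improved rule for words of length `K + 1`. -/
def rl (K q : ℕ) {m : ℕ} (c : Fin (K + 1) → Fin m) : Bool :=
  evenRule (fun j : Fin K => c j.castSucc) || decide (∀ i : Fin (K + 1), Iv q (i.val + 1) (c i))

lemma even_incr {K m : ℕ} (hK : Even K) (h2 : 2 ≤ K) (c : Fin K → Fin m) (hc : StrictMono c) :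
    evenRule c = false := by
  rw [evenRule_eq c ⟨K - 1, by omega⟩]
  · rw [decide_eq_false_iff_not]
    obtain ⟨r, rfl⟩ := hK
    simp only
    omega
  · intro i hi
    apply hc
    rw [Fin.lt_def]
    have h3 : i.val ≠ K - 1 := fun h => hi (Fin.ext h)
    have := i.2
    simp only
    omega

lemma dicut_ge {K q m : ℕ} (hK : Even K) (h2 : 2 ≤ K) (hm : m = (K + 2) * q) (hq : 0 < q) :
    dicut (evenRule : (Fin K → Fin m) → Bool) * m + q ^ (K + 2) ≤
      dicut (rl K q : (Fin (K + 1) → Fin m) → Bool) := by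
  classical
  set A := Finset.univ.filter fun w : Fin (K + 1 + 1) → Fin m =>
    evenRule (fun j : Fin K => w j.castSucc.castSucc) = true ∧
      evenRule (fun j : Fin K => w j.succ.castSucc) = false with hA
  set T1 := Finset.univ.filter fun w : Fin (K + 1 + 1) → Fin m =>
    ∀ i : Fin (K + 1), Iv q (i.val + 1) (w i.castSucc) with hT1
  set T2 := Finset.univ.filter fun w : Fin (K + 1 + 1) → Fin m =>
    ∀ i : Fin (K + 1), Iv q (i.val + 1) (w i.succ) with hT2
  set T0 := Finset.univ.filter fun w : Fin (K + 1 + 1) → Fin m =>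
    ∀ i : Fin (K + 1 + 1), Iv q i.val (w i) with hT0
  have hmpos : 0 < m := by
    rw [hm]
    positivity
  -- the cardinality of `A`
  have hAc : A.card = dicut (evenRule : (Fin K → Fin m) → Bool) * m := by
    have h := card_comp_injective (m := m) (n := K + 1 + 1) (r := K + 1) Fin.castSucc
      (Fin.castSucc_injective _) (fun u : Fin (K + 1) → Fin m =>
        evenRule (fun j => u j.castSucc) = true ∧ evenRule (fun j => u j.succ) = false)
    have h' : A.card * m ^ (K + 1) = (dicut (evenRule : (Fin K → Fin m) → Bool) * m) *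
        m ^ (K + 1) := by
      rw [hA]
      refine Eq.trans h ?_
      unfold dicut
      rw [pow_succ m (K + 1)]
      ring
    exact Nat.eq_of_mul_eq_mul_right (by positivity) h'
  have hT0c : q ^ (K + 2) ≤ T0.card := by
    have h1 : q ^ (K + 2) = (Finset.univ : Finset (Fin (K + 1 + 1) → Fin q)).card := by
      rw [Finset.card_univ, Fintype.card_fun, Fintype.card_fin, Fintype.card_fin]
    have hb : ∀ (i : Fin (K + 1 + 1)) (x : Fin q), i.val * q + x.val < m := by
      intro i x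
      have h3 : (i.val + 1) * q ≤ (K + 2) * q := Nat.mul_le_mul_right q (by have := i.2; omega)
      have h4 := x.2
      rw [hm]
      rw [Nat.add_mul, Nat.one_mul] at h3
      omega
    rw [h1]
    apply Finset.card_le_card_of_injOn (fun v i => ⟨i.val * q + (v i).val, hb i (v i)⟩)
    · intro v _
      rw [Finset.mem_coe, hT0, Finset.mem_filter]
      refine ⟨Finset.mem_univ _, fun i => ⟨Nat.le_add_right _ _, ?_⟩⟩
      have := (v i).2
      rw [Nat.add_mul, Nat.one_mul]
      simp only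
      omega
    · intro v _ v' _ hv
      funext i
      have h3 := congrFun hv i
      simp only [Fin.mk.injEq] at h3
      apply Fin.ext
      omega
  have hinc : ∀ (b : ℕ) (w : Fin K → Fin m), (∀ i, Iv q (i.val + b) (w i)) →
      evenRule w = false := by
    intro b w hw
    apply even_incr hK h2
    intro i j hij
    exact Iv_lt (hw i) (hw j) (by rw [Fin.lt_def] at hij; omega)
  have hT1A : ∀ w ∈ T1, evenRule (fun j : Fin K => w j.castSucc.castSucc) = false ∧
      evenRule (fun j : Fin K => w j.succ.castSucc) = false := by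
    intro w hw
    rw [hT1, Finset.mem_filter] at hw
    constructor
    · exact hinc 1 _ fun i => hw.2 i.castSucc
    · exact hinc 2 _ fun i => hw.2 i.succ
  have h12 : ∀ w ∈ T1, w ∉ T2 := by
    intro w hw hw'
    rw [hT1, Finset.mem_filter] at hw
    rw [hT2, Finset.mem_filter] at hw'
    have e1 := hw.2 ⟨1, by omega⟩
    have e2 := hw'.2 ⟨0, by omega⟩
    have e3 : (⟨1, by omega⟩ : Fin (K + 1)).castSucc = (⟨0, by omega⟩ : Fin (K + 1)).succ := rfl
    rw [e3] at e1
    exact lt_irrefl _ (Iv_lt e2 e1 (by simp))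
  have hT02 : T0 ⊆ T2 := by
    intro w hw
    rw [hT0, Finset.mem_filter] at hw
    rw [hT2, Finset.mem_filter]
    exact ⟨Finset.mem_univ _, fun i => hw.2 i.succ⟩
  have hT0A : ∀ w ∈ T0, w ∉ A := by
    intro w hw hw'
    rw [hT0, Finset.mem_filter] at hw
    rw [hA, Finset.mem_filter] at hw'
    have := hinc 0 (fun j : Fin K => w j.castSucc.castSucc) fun i => hw.2 i.castSucc.castSucc
    rw [this] at hw'
    exact absurd hw'.2.1 (by simp)
  have hcard12 : T2.card ≤ T1.card := by
    apply Finset.card_le_card_of_injOn (fun w i => w (i + 1))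
    · intro w hw
      rw [Finset.mem_coe, hT2, Finset.mem_filter] at hw
      rw [Finset.mem_coe, hT1, Finset.mem_filter]
      refine ⟨Finset.mem_univ _, fun i => ?_⟩
      simp only
      rw [Fin.coeSucc_eq_succ]
      exact hw.2 i
    · intro w _ w' _ h
      funext i
      have := congrFun h (i - 1)
      simpa using this
  -- the set of edges
  have hsub : (A \ T2) ∪ T1 ⊆ Finset.univ.filter fun x : Fin (K + 1 + 1) → Fin m =>
      rl K q (fun j => x j.castSucc) = true ∧ rl K q (fun j => x j.succ) = false := by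
    intro w hw
    rw [Finset.mem_filter]
    refine ⟨Finset.mem_univ _, ?_⟩
    rw [Finset.mem_union, Finset.mem_sdiff] at hw
    unfold rl
    rw [Bool.or_eq_true, Bool.or_eq_false_iff, decide_eq_true_eq, decide_eq_false_iff_not]
    rcases hw with ⟨hwA, hwT⟩ | hw1
    · rw [hA, Finset.mem_filter] at hwA
      rw [hT2, Finset.mem_filter] at hwT
      refine ⟨Or.inl hwA.2.1, hwA.2.2, fun h => hwT ⟨Finset.mem_univ _, h⟩⟩
    · have h3 := hT1A w hw1
      have h4 := h12 w hw1
      rw [hT2, Finset.mem_filter] at h4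
      rw [hT1, Finset.mem_filter] at hw1
      exact ⟨Or.inr hw1.2, h3.2, fun h => h4 ⟨Finset.mem_univ _, h⟩⟩
  have hdisj : Disjoint (A \ T2) T1 := by
    rw [Finset.disjoint_left]
    intro w hw hw1
    rw [Finset.mem_sdiff, hA, Finset.mem_filter] at hw
    have := (hT1A w hw1).1
    rw [this] at hw
    exact absurd hw.1.2.1 (by simp)
  have hc1 := Finset.card_le_card hsub
  rw [Finset.card_union_of_disjoint hdisj] at hc1
  have hc2 : (A ∩ T2).card + T0.card ≤ T2.card := by
    rw [← Finset.card_union_of_disjoint]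
    · apply Finset.card_le_card
      apply Finset.union_subset Finset.inter_subset_right hT02
    · rw [Finset.disjoint_left]
      intro w hw hw0
      exact hT0A w hw0 (Finset.mem_inter.1 hw).1
  have hc3 : (A \ T2).card + (A ∩ T2).card = A.card := Finset.card_sdiff_add_card_inter A T2
  have hc4 : dicut (rl K q : (Fin (K + 1) → Fin m) → Bool) =
      (Finset.univ.filter fun x : Fin (K + 1 + 1) → Fin m =>
      rl K q (fun j => x j.castSucc) = true ∧ rl K q (fun j => x j.succ) = false).card := rfl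
  rw [hc4]
  omega

/-- `f(n, K + 1) ≥ K / (2 K + 2) + 1 / (K + 2) ^ (K + 2)` for even `K ≥ 2`. -/
lemma lower_odd {K n : ℕ} (hK : Even K) (h2 : 2 ≤ K) (hn : K + 2 ≤ n) :
    (K : ℝ) / (2 * K + 2) + 1 / ((K : ℝ) + 2) ^ (K + 2) ≤ fnk n (K + 1) := by
  have hk2 : ((K / 2 : ℕ) : ℝ) = (K : ℝ) / 2 := by
    obtain ⟨j, rfl⟩ := hK
    have : (j + j) / 2 = j := by omega
    rw [this]
    push_cast
    ring
  apply le_of_forall_pos_le_add
  intro ε hε
  obtain ⟨m0, hm0⟩ := exists_nat_gt ((K : ℝ) / 2 * (K + 1) / ε)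
  set q : ℕ := m0 + 1 with hq
  set m : ℕ := (K + 2) * q with hm
  have hqpos : (0 : ℝ) < q := by
    rw [hq]
    positivity
  have hmq : (m : ℝ) = ((K : ℝ) + 2) * q := by
    rw [hm]
    push_cast
    ring
  have hmpos : (0 : ℝ) < m := by
    rw [hmq]
    positivity
  have h1 := rule_le_fnk (k := K + 1) (m := m) (by exact_mod_cast hmpos) (rl K q) hn
  have h2' := dicut_even (k := K) (m := m) hK
  have h3 : ((K / 2 : ℕ) : ℝ) * (m : ℝ) ^ (K + 1) ≤
      ((K : ℝ) + 1) * (dicut (evenRule : (Fin K → Fin m) → Bool) : ℝ) +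
      ((K / 2 : ℕ) : ℝ) * (((K : ℝ) + 1) * ((K : ℝ) + 1) * (m : ℝ) ^ K) := by
    exact_mod_cast h2'
  rw [hk2] at h3
  have h6 := dicut_ge (K := K) (q := q) (m := m) hK h2 hm (by omega)
  have h7 : (dicut (evenRule : (Fin K → Fin m) → Bool) : ℝ) * m + (q : ℝ) ^ (K + 2) ≤
      (dicut (rl K q : (Fin (K + 1) → Fin m) → Bool) : ℝ) := by exact_mod_cast h6
  set d : ℝ := (dicut (evenRule : (Fin K → Fin m) → Bool) : ℝ) with hd
  set d' : ℝ := (dicut (rl K q : (Fin (K + 1) → Fin m) → Bool) : ℝ) with hd'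
  have hk1 : (0 : ℝ) < (K : ℝ) + 1 := by positivity
  have h4 : (K : ℝ) / (2 * K + 2) ≤ d / (m : ℝ) ^ (K + 1) + (K : ℝ) / 2 * (K + 1) / m := by
    have e : d / (m : ℝ) ^ (K + 1) + (K : ℝ) / 2 * (K + 1) / m =
        (((K : ℝ) + 1) * d + (K : ℝ) / 2 * (((K : ℝ) + 1) * ((K : ℝ) + 1) * (m : ℝ) ^ K)) /
          (((K : ℝ) + 1) * (m : ℝ) ^ (K + 1)) := by
      rw [pow_succ]
      field_simp
    rw [e, le_div_iff₀ (by positivity)]
    refine le_trans (le_of_eq ?_) h3
    field_simp
  have h5 : (K : ℝ) / 2 * (K + 1) / m ≤ ε := by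
    rw [div_lt_iff₀ hε] at hm0
    rw [div_le_iff₀ hmpos]
    have e1 : (m0 : ℝ) ≤ m := by
      have e2 : (m0 : ℝ) ≤ q := by
        rw [hq]
        push_cast
        linarith
      have e3 : (q : ℝ) ≤ m := by
        rw [hmq]
        nlinarith
      linarith
    nlinarith
  have h8 : d / (m : ℝ) ^ (K + 1) + 1 / ((K : ℝ) + 2) ^ (K + 2) ≤ d' / (m : ℝ) ^ (K + 1 + 1) := by
    have e1 : d / (m : ℝ) ^ (K + 1) = d * m / (m : ℝ) ^ (K + 1 + 1) := by
      rw [pow_succ (m : ℝ) (K + 1)]
      field_simp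
    have e2 : 1 / ((K : ℝ) + 2) ^ (K + 2) = (q : ℝ) ^ (K + 2) / (m : ℝ) ^ (K + 1 + 1) := by
      rw [hmq, mul_pow]
      field_simp
    rw [e1, e2, ← add_div]
    exact div_le_div_of_nonneg_right h7 (by positivity)
  linarith

/-- The limits `f(k)` exist, for every odd `k` the limit `f(k)` is strictly smaller than
`(k + 1) / (2 k + 4)`, for every even `k ≥ 2` the limit `f(k + 1)` is at least
`k / (2 k + 2) + 1 / (k + 2) ^ (k + 2)`, and `f(k) < f(k + 1)` for every `k ≥ 1`. -/
theorem result : ∃ f : ℕ → ℝ, (∀ k, Tendsto (fun n => fnk n k) atTop (nhds (f k))) ∧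
    (∀ k : ℕ, Odd k → f k < ((k : ℝ) + 1) / (2 * k + 4)) ∧
    (∀ k : ℕ, Even k → 2 ≤ k →
      (k : ℝ) / (2 * k + 2) + 1 / ((k : ℝ) + 2) ^ (k + 2) ≤ f (k + 1)) ∧
    (∀ k : ℕ, 1 ≤ k → f k < f (k + 1)) := by
  choose f hf using exists_limit
  have hodd : ∀ k : ℕ, Odd k → f k < ((k : ℝ) + 1) / (2 * k + 4) := by
    intro k hk
    obtain ⟨L, hL, hlt⟩ := Pool.Agent.W274.SH.Odd.odd_lt hk
    rw [tendsto_nhds_unique (hf k) hL]
    exact hlt
  have hevenv : ∀ k : ℕ, Even k → f k = (k : ℝ) / (2 * k + 2) := fun k hk =>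
    tendsto_nhds_unique (hf k) (tendsto_even hk)
  have heven : ∀ k : ℕ, Even k → 2 ≤ k →
      (k : ℝ) / (2 * k + 2) + 1 / ((k : ℝ) + 2) ^ (k + 2) ≤ f (k + 1) := by
    intro k hk h2
    refine ge_of_tendsto (hf (k + 1)) ?_
    filter_upwards [eventually_ge_atTop (k + 2)] with n hn
    exact lower_odd hk h2 hn
  refine ⟨f, hf, hodd, heven, ?_⟩
  intro k hk1
  rcases Nat.even_or_odd k with hk | hk
  · have h2 : 2 ≤ k := by
      obtain ⟨j, rfl⟩ := hk
      omega
    rw [hevenv k hk]
    refine lt_of_lt_of_le ?_ (heven k hk h2)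
    have : (0 : ℝ) < 1 / ((k : ℝ) + 2) ^ (k + 2) := by positivity
    linarith
  · have h1 := hodd k hk
    have h2 := hevenv (k + 1) hk.add_one
    rw [h2]
    refine h1.trans_eq ?_
    push_cast
    ring_nf

end Pool.Agent.Results.MP_4e1dcd_co.StrictlyIncreasing
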